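import Mathlib

set_option autoImplicit false

open Finset Polynomial

namespace Pool.Agent.H182R2

/-! ### Sign lemmas -/

/-- A real sequence whose signs propagate and whose step-two sums over a period vanish is zero. -/
lemma sign_zero (d : ℕ → ℝ) (m p : ℕ) (hm : 1 ≤ m) (hp : 1 ≤ p)
    (h1 : ∀ n, 0 ≤ d n → 0 ≤ d (n + 1) → 0 ≤ d (n + 2))
    (h1' : ∀ n, d n ≤ 0 → d (n + 1) ≤ 0 → d (n + 2) ≤ 0)
    (h2 : ∀ k, ∑ j ∈ range m, d (k + 2 * j) = 0)
    (h3 : ∀ n, d (n + p) = d n) : ∀ n, d n = 0 := by
  have hper : ∀ n q, d (n + p * q) = d n := by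
    intro n q
    induction q with
    | zero => simp
    | succ q ih => rw [show n + p * (q + 1) = (n + p * q) + p by ring, h3, ih]
  have key : ∀ n, (∀ k, n ≤ k → d k = 0) → ∀ k, d k = 0 := by
    intro n h k
    rw [← hper k n]
    apply h
    nlinarith
  by_cases hA : ∃ n, 0 ≤ d n ∧ 0 ≤ d (n + 1)
  · obtain ⟨n, hn, hn1⟩ := hA
    have hall : ∀ k, 0 ≤ d (n + k) ∧ 0 ≤ d (n + k + 1) := by
      intro k
      induction k with
      | zero => exact ⟨hn, hn1⟩
      | succ k ih => exact ⟨ih.2, h1 _ ih.1 ih.2⟩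
    apply key n
    intro k hk
    obtain ⟨r, rfl⟩ := Nat.exists_eq_add_of_le hk
    have hs := h2 (n + r)
    have hs2 := (Finset.sum_eq_zero_iff_of_nonneg (s := range m)
      (f := fun j => d (n + r + 2 * j)) (fun j _ => by
        have := (hall (r + 2 * j)).1
        rwa [show n + (r + 2 * j) = n + r + 2 * j by ring] at this)).1 hs
    have := hs2 0 (by simp; omega)
    simpa using this
  by_cases hB : ∃ n, d n ≤ 0 ∧ d (n + 1) ≤ 0
  · obtain ⟨n, hn, hn1⟩ := hB
    have hall : ∀ k, d (n + k) ≤ 0 ∧ d (n + k + 1) ≤ 0 := by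
      intro k
      induction k with
      | zero => exact ⟨hn, hn1⟩
      | succ k ih => exact ⟨ih.2, h1' _ ih.1 ih.2⟩
    apply key n
    intro k hk
    obtain ⟨r, rfl⟩ := Nat.exists_eq_add_of_le hk
    have hs := h2 (n + r)
    have hs2 := (Finset.sum_eq_zero_iff_of_nonpos (s := range m)
      (f := fun j => d (n + r + 2 * j)) (fun j _ => by
        have := (hall (r + 2 * j)).1
        rwa [show n + (r + 2 * j) = n + r + 2 * j by ring] at this)).1 hs
    have := hs2 0 (by simp; omega)
    simpa using this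
  · exfalso
    push Not at hA hB
    -- signs alternate strictly
    have hs := h2 0
    rcases lt_trichotomy (d 0) 0 with h0 | h0 | h0
    · have hall : ∀ j, d (2 * j) < 0 := by
        intro j
        induction j with
        | zero => simpa using h0
        | succ j ih =>
          have a := hB (2 * j) ih.le
          have b := hA (2 * j + 1) a.le
          simpa [mul_add, add_assoc] using b
      have : ∑ j ∈ range m, d (0 + 2 * j) < 0 := by
        apply Finset.sum_neg
        · intro j _
          simpa using hall j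
        · exact ⟨0, by simp; omega⟩
      linarith
    · have a := hA 0 h0.ge
      have b := hB 0 h0.le
      linarith
    · have hall : ∀ j, 0 < d (2 * j) := by
        intro j
        induction j with
        | zero => simpa using h0
        | succ j ih =>
          have a := hA (2 * j) ih.le
          have b := hB (2 * j + 1) a.le
          simpa [mul_add, add_assoc] using b
      have : 0 < ∑ j ∈ range m, d (0 + 2 * j) := by
        apply Finset.sum_pos
        · intro j _
          simpa using hall j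
        · exact ⟨0, by simp; omega⟩
      linarith

/-- Step-two sums of `x (n+2) - x n` over a period vanish. -/
lemma sum_step_two (x : ℕ → ℝ) (m : ℕ) (hx : ∀ n, x (n + m) = x n) (k : ℕ) :
    ∑ j ∈ range m, (x (k + 2 * j + 2) - x (k + 2 * j)) = 0 := by
  have h : ∀ M, ∑ j ∈ range M, (x (k + 2 * j + 2) - x (k + 2 * j)) = x (k + 2 * M) - x k := by
    intro M
    induction M with
    | zero => simp
    | succ M ih =>
      rw [Finset.sum_range_succ, ih, show k + 2 * (M + 1) = k + 2 * M + 2 by ring]
      ring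
  rw [h, show k + 2 * m = (k + m) + m by ring, hx, hx, sub_self]

/-- Real periodic solutions of `x (n+2) = φ (x (n+1)) - δ x n` with `φ` increasing, `δ < 0`. -/
lemma mono_period (φ : ℝ → ℝ) (hφ : StrictMono φ) (δ : ℝ) (hδ : δ < 0) (x : ℕ → ℝ) (m : ℕ)
    (hm : 1 ≤ m) (hx : ∀ n, x (n + m) = x n)
    (hrec : ∀ n, x (n + 2) = φ (x (n + 1)) - δ * x n) : ∀ n, x (n + 2) = x n := by
  have := sign_zero (fun n => x (n + 2) - x n) m m hm hm ?_ ?_ (sum_step_two x m hx) ?_
  · intro n
    have := this n
    linarith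
  · intro n h0 h1
    have h1' : x (n + 1) ≤ x (n + 3) := by
      have : n + 1 + 2 = n + 3 := rfl
      simpa [this] using sub_nonneg.1 h1
    have e1 := hrec n
    have e2 := hrec (n + 2)
    have h3 := hφ.monotone h1'
    show 0 ≤ x (n + 2 + 2) - x (n + 2)
    have h0' : x n ≤ x (n + 2) := sub_nonneg.1 h0
    have : 0 ≤ (-δ) * (x (n + 2) - x n) := mul_nonneg (by linarith) (by linarith)
    have h3' : φ (x (n + 1)) ≤ φ (x (n + 2 + 1)) := h3
    nlinarith
  · intro n h0 h1
    have h1' : x (n + 3) ≤ x (n + 1) := by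
      have : n + 1 + 2 = n + 3 := rfl
      simpa [this] using sub_nonpos.1 h1
    have e1 := hrec n
    have e2 := hrec (n + 2)
    have h3 := hφ.monotone h1'
    show x (n + 2 + 2) - x (n + 2) ≤ 0
    have h0' : x (n + 2) ≤ x n := sub_nonpos.1 h0
    have h3' : φ (x (n + 2 + 1)) ≤ φ (x (n + 1)) := h3
    have : 0 ≤ (-δ) * (x n - x (n + 2)) := mul_nonneg (by linarith) (by linarith)
    nlinarith
  · intro n
    show x (n + m + 2) - x (n + m) = x (n + 2) - x n
    rw [show n + m + 2 = (n + 2) + m by ring, hx, hx]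

/-- The same for decreasing `φ`. -/
lemma anti_period (φ : ℝ → ℝ) (hφ : StrictAnti φ) (δ : ℝ) (hδ : δ < 0) (x : ℕ → ℝ) (m : ℕ)
    (hm : 1 ≤ m) (hx : ∀ n, x (n + m) = x n)
    (hrec : ∀ n, x (n + 2) = φ (x (n + 1)) - δ * x n) : ∀ n, x (n + 2) = x n := by
  have := sign_zero (fun n => (-1) ^ n * (x (n + 2) - x n)) m (2 * m) hm (by omega) ?_ ?_ ?_ ?_
  · intro n
    have h := this n
    have h2 : ((-1 : ℝ)) ^ n ≠ 0 := pow_ne_zero _ (by norm_num)
    have := (mul_eq_zero.1 h).resolve_left h2
    linarith
  · intro n h0 h1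
    have e1 := hrec n
    have e2 := hrec (n + 2)
    rcases neg_one_pow_eq_or ℝ n with hn | hn
    · rw [hn] at h0
      rw [pow_succ, hn] at h1
      rw [pow_add, hn]
      have h1' : x (n + 3) ≤ x (n + 1) := by
        have : n + 1 + 2 = n + 3 := rfl
        rw [this] at h1
        linarith
      have h3 : φ (x (n + 1)) ≤ φ (x (n + 2 + 1)) := hφ.antitone h1'
      have h0' : x n ≤ x (n + 2) := by linarith
      have : 0 ≤ (-δ) * (x (n + 2) - x n) := mul_nonneg (by linarith) (by linarith)
      nlinarith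
    · rw [hn] at h0
      rw [pow_succ, hn] at h1
      rw [pow_add, hn]
      have h1' : x (n + 1) ≤ x (n + 3) := by
        have : n + 1 + 2 = n + 3 := rfl
        rw [this] at h1
        linarith
      have h3 : φ (x (n + 2 + 1)) ≤ φ (x (n + 1)) := hφ.antitone h1'
      have h0' : x (n + 2) ≤ x n := by linarith
      have : 0 ≤ (-δ) * (x n - x (n + 2)) := mul_nonneg (by linarith) (by linarith)
      nlinarith
  · intro n h0 h1
    have e1 := hrec n
    have e2 := hrec (n + 2)
    rcases neg_one_pow_eq_or ℝ n with hn | hn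
    · rw [hn] at h0
      rw [pow_succ, hn] at h1
      rw [pow_add, hn]
      have h1' : x (n + 1) ≤ x (n + 3) := by
        have : n + 1 + 2 = n + 3 := rfl
        rw [this] at h1
        linarith
      have h3 : φ (x (n + 2 + 1)) ≤ φ (x (n + 1)) := hφ.antitone h1'
      have h0' : x (n + 2) ≤ x n := by linarith
      have : 0 ≤ (-δ) * (x n - x (n + 2)) := mul_nonneg (by linarith) (by linarith)
      nlinarith
    · rw [hn] at h0
      rw [pow_succ, hn] at h1
      rw [pow_add, hn]
      have h1' : x (n + 3) ≤ x (n + 1) := by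
        have : n + 1 + 2 = n + 3 := rfl
        rw [this] at h1
        linarith
      have h3 : φ (x (n + 1)) ≤ φ (x (n + 2 + 1)) := hφ.antitone h1'
      have h0' : x n ≤ x (n + 2) := by linarith
      have : 0 ≤ (-δ) * (x (n + 2) - x n) := mul_nonneg (by linarith) (by linarith)
      nlinarith
  · intro k
    have h := sum_step_two x m hx k
    have : ∀ j, (-1 : ℝ) ^ (k + 2 * j) * (x (k + 2 * j + 2) - x (k + 2 * j)) =
        (-1) ^ k * (x (k + 2 * j + 2) - x (k + 2 * j)) := by
      intro j
      rw [pow_add, pow_mul]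
      norm_num
    simp only [this]
    rw [← Finset.mul_sum, h, mul_zero]
  · intro n
    show (-1 : ℝ) ^ (n + 2 * m) * (x (n + 2 * m + 2) - x (n + 2 * m)) =
      (-1) ^ n * (x (n + 2) - x n)
    have a : x (n + 2 * m + 2) = x (n + 2) := by
      rw [show n + 2 * m + 2 = (n + 2) + m + m by ring, hx, hx]
    have b : x (n + 2 * m) = x n := by
      rw [show n + 2 * m = n + m + m by ring, hx, hx]
    rw [a, b, pow_add, pow_mul]
    norm_num

/-- No periodic solution if `φ x - (1 + δ) x` never vanishes. -/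
lemma no_period (φ : ℝ → ℝ) (hφ : Continuous φ) (δ : ℝ) (hne : ∀ t, φ t ≠ (1 + δ) * t)
    (x : ℕ → ℝ) (m : ℕ) (hm : 1 ≤ m) (hx : ∀ n, x (n + m) = x n)
    (hrec : ∀ n, x (n + 2) = φ (x (n + 1)) - δ * x n) : False := by
  set G : ℝ → ℝ := fun t => φ t - (1 + δ) * t with hG
  have hGc : Continuous G := by fun_prop
  have hG0 : ∀ t, G t ≠ 0 := fun t h => hne t (by simpa [hG, sub_eq_zero] using h)
  have hshift : ∀ (f : ℕ → ℝ), (∀ n, f (n + m) = f n) →
      ∑ j ∈ range m, f (j + 1) = ∑ j ∈ range m, f j := by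
    intro f hf
    have a := Finset.sum_range_succ' f m
    have b := Finset.sum_range_succ f m
    have c := hf 0
    rw [zero_add] at c
    linarith
  have hsum : ∑ j ∈ range m, G (x (j + 1)) = 0 := by
    have e : ∀ j, G (x (j + 1)) = x (j + 2) + δ * x j - (1 + δ) * x (j + 1) := by
      intro j
      simp only [hG]
      rw [hrec j]
      ring
    simp only [e]
    rw [Finset.sum_sub_distrib, Finset.sum_add_distrib, ← Finset.mul_sum, ← Finset.mul_sum]
    have a := hshift x hx
    have b := hshift (fun n => x (n + 1)) (fun n => by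
      show x (n + m + 1) = x (n + 1)
      rw [show n + m + 1 = (n + 1) + m by ring, hx])
    have b' : ∑ j ∈ range m, x (j + 2) = ∑ j ∈ range m, x (j + 1) := b
    rw [b', a]
    ring
  rcases lt_or_gt_of_ne (hG0 (x 1)) with h | h
  · have hneg : ∀ t, G t < 0 := by
      intro t
      by_contra hc
      push Not at hc
      have : (0 : ℝ) ∈ Set.range G := by
        apply mem_range_of_exists_le_of_exists_ge hGc ⟨x 1, h.le⟩ ⟨t, hc⟩
      obtain ⟨s, hs⟩ := this
      exact hG0 s hs
    have : ∑ j ∈ range m, G (x (j + 1)) < 0 :=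
      Finset.sum_neg (fun j _ => hneg _) ⟨0, by simp; omega⟩
    linarith
  · have hpos : ∀ t, 0 < G t := by
      intro t
      by_contra hc
      push Not at hc
      have : (0 : ℝ) ∈ Set.range G := by
        apply mem_range_of_exists_le_of_exists_ge hGc ⟨t, hc⟩ ⟨x 1, le_of_lt h⟩
      obtain ⟨s, hs⟩ := this
      exact hG0 s hs
    have : 0 < ∑ j ∈ range m, G (x (j + 1)) :=
      Finset.sum_pos (fun j _ => hpos _) ⟨0, by simp; omega⟩
    linarith

/-- Two periodic solutions agree in the expanding case. -/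
lemma expanding_period (φ : ℝ → ℝ) (δ : ℝ)
    (hexp : ∀ s t, s ≠ t → (1 + |δ|) * |s - t| < |φ s - φ t|)
    (x y : ℕ → ℝ) (m : ℕ) (hm : 1 ≤ m) (hx : ∀ n, x (n + m) = x n) (hy : ∀ n, y (n + m) = y n)
    (hrecx : ∀ n, x (n + 2) = φ (x (n + 1)) - δ * x n)
    (hrecy : ∀ n, y (n + 2) = φ (y (n + 1)) - δ * y n) : ∀ n, x n = y n := by
  have hperx : ∀ n q, x (n + m * q) = x n := by
    intro n q
    induction q with
    | zero => simp
    | succ q ih => rw [show n + m * (q + 1) = (n + m * q) + m by ring, hx, ih]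
  have hpery : ∀ n q, y (n + m * q) = y n := by
    intro n q
    induction q with
    | zero => simp
    | succ q ih => rw [show n + m * (q + 1) = (n + m * q) + m by ring, hy, ih]
  obtain ⟨i, hi, hmax⟩ := Finset.exists_max_image (range m) (fun n => |x n - y n|)
    ⟨0, by simp; omega⟩
  have hmax' : ∀ n, |x n - y n| ≤ |x i - y i| := by
    intro n
    have h1 : n = n % m + m * (n / m) := (Nat.mod_add_div n m).symm
    rw [h1, hperx, hpery]
    exact hmax _ (by simp; exact Nat.mod_lt _ (by omega))
  by_contra hcon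
  push Not at hcon
  obtain ⟨k, hk⟩ := hcon
  have hipos : 0 < |x i - y i| := lt_of_lt_of_le (abs_pos.2 (sub_ne_zero.2 hk)) (hmax' k)
  have hine : x i ≠ y i := sub_ne_zero.1 (abs_pos.1 hipos)
  -- look at index j with j + 1 congruent to i
  set j := i + (m - 1) with hj
  have hj1 : j + 1 = i + m := by omega
  have ex := hrecx j
  have ey := hrecy j
  have hxj : x (j + 1) = x i := by rw [hj1, hx]
  have hyj : y (j + 1) = y i := by rw [hj1, hy]
  have hE := hexp (x i) (y i) hine
  have e : φ (x i) - φ (y i) = (x (j + 2) - y (j + 2)) + δ * (x j - y j) := by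
    rw [ex, ey, hxj, hyj]
    ring
  have h1 : |φ (x i) - φ (y i)| ≤ |x (j + 2) - y (j + 2)| + |δ| * |x j - y j| := by
    rw [e]
    refine (abs_add_le _ _).trans ?_
    rw [abs_mul]
  have h2 := hmax' (j + 2)
  have h3 := mul_le_mul_of_nonneg_left (hmax' j) (abs_nonneg δ)
  nlinarith

/-! ### Real embeddings of odd degree extensions -/

lemma real_root_of_odd (p : ℝ[X]) (hp : Odd p.natDegree) : ∃ x, p.eval x = 0 := by
  have hpos : 0 < p.natDegree := hp.pos
  have hdeg : 0 < p.degree := natDegree_pos_iff_degree_pos.1 hpos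
  have main : ∀ q : ℝ[X], Odd q.natDegree → 0 < q.degree → 0 ≤ q.leadingCoeff →
      ∃ x, q.eval x = 0 := by
    intro q hq hqd hl
    have h1 := q.tendsto_atTop_of_leadingCoeff_nonneg hqd hl
    have h2 : Filter.Tendsto (fun x => (q.comp (-X)).eval x) Filter.atTop Filter.atBot := by
      apply Polynomial.tendsto_atBot_of_leadingCoeff_nonpos
      · rw [← natDegree_pos_iff_degree_pos, natDegree_comp, natDegree_neg, natDegree_X, mul_one]
        exact hq.pos
      · rw [leadingCoeff_comp (by simp)]
        rw [leadingCoeff_neg, leadingCoeff_X, hq.neg_one_pow]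
        linarith
    obtain ⟨a, ha⟩ := (h1.eventually_ge_atTop 0).exists
    obtain ⟨b, hb⟩ := (h2.eventually_le_atBot 0).exists
    have hb' : q.eval (-b) ≤ 0 := by simpa using hb
    obtain ⟨c, hc⟩ := mem_range_of_exists_le_of_exists_ge (f := fun x => q.eval x)
      q.continuous ⟨-b, hb'⟩ ⟨a, ha⟩
    exact ⟨c, hc⟩
  rcases le_total 0 p.leadingCoeff with h | h
  · exact main p hp hdeg h
  · obtain ⟨x, hx⟩ := main (-p) (by simpa using hp) (by simpa using hdeg) (by simpa using h)
    exact ⟨x, by simpa using hx⟩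

/-- A finite extension of odd degree of a number field `K` embeds in `ℝ` over every real
embedding of `K`. -/
lemma exists_real_embedding {K L : Type*} [Field K] [CharZero K] [Field L] [Algebra K L]
    (σ : K →+* ℝ) (hodd : Odd (Module.finrank K L)) :
    ∃ τ : L →+* ℝ, ∀ a, τ (algebraMap K L a) = σ a := by
  have : FiniteDimensional K L := FiniteDimensional.of_finrank_pos hodd.pos
  let _ : Algebra K ℝ := σ.toAlgebra
  let pb := Field.powerBasisOfFiniteOfSeparable K L
  have hdim : (minpoly K pb.gen).natDegree = Module.finrank K L := by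
    rw [PowerBasis.natDegree_minpoly, PowerBasis.finrank]
  obtain ⟨y, hy⟩ := real_root_of_odd ((minpoly K pb.gen).map σ) (by
    rw [natDegree_map, hdim]; exact hodd)
  have hy' : aeval y (minpoly K pb.gen) = 0 := by
    rw [aeval_def, eval₂_eq_eval_map]
    exact hy
  refine ⟨(pb.lift y hy').toRingHom, fun a => ?_⟩
  exact (pb.lift y hy').commutes a

end Pool.Agent.H182R2
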