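import Mathlib

set_option autoImplicit false

open Finset

namespace Pool.Agent.H182R2.Jum

/-! ### Linear algebra over a field of characteristic two -/

section defs

variable {K : Type} [Field K]

/-- dot product on `K^3`. -/
def dot3 (x y : K × K × K) : K := x.1 * y.1 + x.2.1 * y.2.1 + x.2.2 * y.2.2

/-- dot product on `K^6`. -/
def dot6 (z w : (K × K × K) × (K × K × K)) : K := dot3 z.1 w.1 + dot3 z.2 w.2

/-- the quadratic map `(x2 x3, x1 x3, x1 x2)`. -/
def F (x : K × K × K) : K × K × K := (x.2.1 * x.2.2, x.1 * x.2.2, x.1 * x.2.1)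

/-- cross product without signs. -/
def crs (x y : K × K × K) : K × K × K :=
  (x.2.1 * y.2.2 + x.2.2 * y.2.1, x.1 * y.2.2 + x.2.2 * y.1, x.1 * y.2.1 + x.2.1 * y.1)

/-- the graph of `F`. -/
def phi (x : K × K × K) : (K × K × K) × (K × K × K) := (x, F x)

lemma dot3_add_left (x y z : K × K × K) : dot3 (x + y) z = dot3 x z + dot3 y z := by
  simp only [dot3, Prod.fst_add, Prod.snd_add]; ring

lemma dot3_add_right (x y z : K × K × K) : dot3 x (y + z) = dot3 x y + dot3 x z := by
  simp only [dot3, Prod.fst_add, Prod.snd_add]; ring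

lemma dot3_comm (x y : K × K × K) : dot3 x y = dot3 y x := by
  simp only [dot3]; ring

lemma dot6_add_left (x y z : (K × K × K) × (K × K × K)) :
    dot6 (x + y) z = dot6 x z + dot6 y z := by
  simp only [dot6, Prod.fst_add, Prod.snd_add, dot3_add_left]; ring

lemma dot6_add_right (x y z : (K × K × K) × (K × K × K)) :
    dot6 x (y + z) = dot6 x y + dot6 x z := by
  simp only [dot6, Prod.fst_add, Prod.snd_add, dot3_add_right]; ring

lemma dot6_comm (x y : (K × K × K) × (K × K × K)) : dot6 x y = dot6 y x := by
  simp only [dot6, dot3_comm]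

lemma dot6_zero (x : (K × K × K) × (K × K × K)) : dot6 x 0 = 0 := by
  simp [dot6, dot3]

lemma F_add (x y : K × K × K) : F (x + y) = F x + F y + crs x y := by
  simp only [F, crs, Prod.fst_add, Prod.snd_add, Prod.mk_add_mk, Prod.mk.injEq]
  refine ⟨by ring, by ring, by ring⟩

lemma crs_add_left (x y z : K × K × K) : crs (x + y) z = crs x z + crs y z := by
  simp only [crs, Prod.fst_add, Prod.snd_add, Prod.mk_add_mk, Prod.mk.injEq]
  refine ⟨by ring, by ring, by ring⟩

lemma dot3_crs (v x a : K × K × K) : dot3 v (crs x a) = dot3 x (crs a v) := by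
  simp only [crs, dot3]; ring

variable [CharP K 2]

lemma add_self (x : K) : x + x = 0 := CharTwo.add_self_eq_zero x

lemma add_self3 (x : K × K × K) : x + x = 0 := by
  ext <;> simp [add_self]

lemma add_self6 (x : (K × K × K) × (K × K × K)) : x + x = 0 := by
  apply Prod.ext
  · exact add_self3 _
  · exact add_self3 _

lemma add_eq_zero3 {x y : K × K × K} : x + y = 0 ↔ x = y := by
  constructor
  · intro h
    have : x + y + y = y := by rw [h, zero_add]
    rwa [add_assoc, add_self3, add_zero] at this
  · rintro rfl; exact add_self3 x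

lemma add_eq_zero6 {x y : (K × K × K) × (K × K × K)} : x + y = 0 ↔ x = y := by
  constructor
  · intro h
    have : x + y + y = y := by rw [h, zero_add]
    rwa [add_assoc, add_self6, add_zero] at this
  · rintro rfl; exact add_self6 x

/-- A vector with vanishing cross product with `α ≠ 0` is a multiple of `α`. -/
lemma exists_smul_of_crs {y α : K × K × K} (hα : α ≠ 0) (h : crs y α = 0) :
    ∃ t : K, y = (t * α.1, t * α.2.1, t * α.2.2) := by
  obtain ⟨a, b, c⟩ := α
  obtain ⟨y1, y2, y3⟩ := y
  simp only [crs, Prod.mk_eq_zero] at h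
  obtain ⟨h1, h2, h3⟩ := h
  have e1 : y2 * c = y3 * b := by
    have := add_self (y3 * b)
    linear_combination h1 - this
  have e2 : y1 * c = y3 * a := by
    have := add_self (y3 * a)
    linear_combination h2 - this
  have e3 : y1 * b = y2 * a := by
    have := add_self (y2 * a)
    linear_combination h3 - this
  by_cases ha : a = 0
  · by_cases hb : b = 0
    · by_cases hc : c = 0
      · exact absurd (by simp [ha, hb, hc]) hα
      · refine ⟨y3 / c, ?_⟩
        simp only [Prod.mk.injEq]
        refine ⟨?_, ?_, ?_⟩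
        · field_simp; linear_combination e2
        · field_simp; linear_combination e1
        · field_simp
    · refine ⟨y2 / b, ?_⟩
      simp only [Prod.mk.injEq]
      refine ⟨?_, ?_, ?_⟩
      · field_simp; linear_combination e3
      · field_simp
      · field_simp; linear_combination -e1
  · refine ⟨y1 / a, ?_⟩
    simp only [Prod.mk.injEq]
    refine ⟨?_, ?_, ?_⟩
    · field_simp
    · field_simp; linear_combination -e3
    · field_simp; linear_combination -e2

lemma crs_smul_self (t : K) (α : K × K × K) : crs (t * α.1, t * α.2.1, t * α.2.2) α = 0 := by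
  simp only [crs, Prod.mk_eq_zero]
  refine ⟨?_, ?_, ?_⟩
  · have := add_self (t * α.2.1 * α.2.2)
    linear_combination this
  · have := add_self (t * α.1 * α.2.2)
    linear_combination this
  · have := add_self (t * α.1 * α.2.1)
    linear_combination this

omit [CharP K 2] in
lemma phi_inj {x y : K × K × K} : phi x = phi y ↔ x = y :=
  ⟨fun h => (Prod.mk.inj h).1, fun h => by rw [h]⟩

/-- The key equivalence for the multiplicities. -/
lemma phi_add_eq_iff {x1 x2 x3 x4 : K × K × K} (h34 : x3 ≠ x4) :
    phi x1 + phi x2 = phi x3 + phi x4 ↔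
      ∃ t : K, x1 = x3 + (t * (x3 + x4).1, t * (x3 + x4).2.1, t * (x3 + x4).2.2) ∧
        x2 = x4 + (t * (x3 + x4).1, t * (x3 + x4).2.1, t * (x3 + x4).2.2) := by
  set α := x3 + x4 with hα
  have hα0 : α ≠ 0 := fun h => h34 (add_eq_zero3.1 h)
  constructor
  · intro h
    obtain ⟨h1, h2⟩ := Prod.mk.inj (show (x1 + x2, F x1 + F x2) = (x3 + x4, F x3 + F x4) from h)
    have hx2 : x2 = x1 + α := by
      have : x1 + (x1 + x2) = x2 := by rw [← add_assoc, add_self3, zero_add]
      rw [← this, h1]
    have hx4 : x4 = x3 + α := by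
      rw [hα, ← add_assoc, add_self3, zero_add]
    have e1 : F x1 + F x2 = F α + crs x1 α := by
      rw [hx2, F_add x1 α]
      have : F x1 + (F x1 + F α + crs x1 α) = (F x1 + F x1) + F α + crs x1 α := by abel
      rw [this, add_self3, zero_add]
    have e2 : F x3 + F x4 = F α + crs x3 α := by
      rw [hx4, F_add x3 α]
      have : F x3 + (F x3 + F α + crs x3 α) = (F x3 + F x3) + F α + crs x3 α := by abel
      rw [this, add_self3, zero_add]
    have e3 : crs (x1 + x3) α = 0 := by
      rw [crs_add_left]
      rw [e1, e2] at h2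
      have := add_left_cancel h2
      rw [this, add_self3]
    obtain ⟨t, ht⟩ := exists_smul_of_crs hα0 e3
    refine ⟨t, ?_, ?_⟩
    · rw [← ht]
      have : x3 + (x1 + x3) = x1 + (x3 + x3) := by abel
      rw [this, add_self3, add_zero]
    · rw [← ht, hx2, hx4]
      have : x3 + α + (x1 + x3) = x1 + α + (x3 + x3) := by abel
      rw [this, add_self3, add_zero]
  · rintro ⟨t, h1, h2⟩
    set y : K × K × K := (t * α.1, t * α.2.1, t * α.2.2) with hy
    have hc : crs y α = 0 := crs_smul_self t α
    have e1 : x1 + x2 = x3 + x4 := by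
      rw [h1, h2]
      have : x3 + y + (x4 + y) = x3 + x4 + (y + y) := by abel
      rw [this, add_self3, add_zero]
    have hcs : crs x3 y + crs x4 y = 0 := by
      rw [← crs_add_left, ← hα]
      have : crs α y = crs y α := by
        simp only [crs, Prod.mk.injEq]
        refine ⟨by ring, by ring, by ring⟩
      rw [this, hc]
    have e2 : F x1 + F x2 = F x3 + F x4 := by
      rw [h1, h2, F_add, F_add]
      have : F x3 + F y + crs x3 y + (F x4 + F y + crs x4 y) =
          F x3 + F x4 + (F y + F y) + (crs x3 y + crs x4 y) := by abel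
      rw [this, add_self3, hcs, add_zero, add_zero]
    exact Prod.ext e1 e2

variable [Fintype K] [DecidableEq K]

/-- Multiplicity of the sums `φ x + φ y`. -/
lemma card_phi_add (x3 x4 : K × K × K) :
    ((univ : Finset ((K × K × K) × (K × K × K))).filter
      (fun xy => phi xy.1 + phi xy.2 = phi x3 + phi x4)).card =
      if x3 = x4 then Fintype.card K ^ 3 else Fintype.card K := by
  split_ifs with h
  · subst h
    rw [add_self6]
    have : ((univ : Finset ((K × K × K) × (K × K × K))).filter
        (fun xy => phi xy.1 + phi xy.2 = 0)) =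
        (univ : Finset (K × K × K)).map ⟨fun x => (x, x), fun a b h => (Prod.mk.inj h).1⟩ := by
      ext ⟨a, b⟩
      simp only [mem_filter, mem_univ, true_and, add_eq_zero6, phi_inj, mem_map]
      constructor
      · rintro rfl; exact ⟨a, rfl⟩
      · rintro ⟨c, hc⟩
        rw [← (Prod.mk.inj hc).1, ← (Prod.mk.inj hc).2]
    rw [this, card_map, card_univ, Fintype.card_prod, Fintype.card_prod]
    ring
  · have hinj : Function.Injective (fun t : K =>
        ((x3 + (t * (x3 + x4).1, t * (x3 + x4).2.1, t * (x3 + x4).2.2),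
          x4 + (t * (x3 + x4).1, t * (x3 + x4).2.1, t * (x3 + x4).2.2)) :
          (K × K × K) × (K × K × K))) := by
      intro t s hts
      simp only [Prod.mk.injEq, add_right_inj] at hts
      obtain ⟨⟨h1, h2, h3⟩, _⟩ := hts
      have hα0 : x3 + x4 ≠ 0 := fun h' => h (add_eq_zero3.1 h')
      by_contra hne
      apply hα0
      have hne' : t - s ≠ 0 := sub_ne_zero.2 hne
      have g1 : (x3 + x4).1 = 0 := by
        have : (t - s) * (x3 + x4).1 = 0 := by rw [sub_mul, h1, sub_self]
        exact (mul_eq_zero.1 this).resolve_left hne'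
      have g2 : (x3 + x4).2.1 = 0 := by
        have : (t - s) * (x3 + x4).2.1 = 0 := by rw [sub_mul, h2, sub_self]
        exact (mul_eq_zero.1 this).resolve_left hne'
      have g3 : (x3 + x4).2.2 = 0 := by
        have : (t - s) * (x3 + x4).2.2 = 0 := by rw [sub_mul, h3, sub_self]
        exact (mul_eq_zero.1 this).resolve_left hne'
      exact Prod.ext g1 (Prod.ext g2 g3)
    have : ((univ : Finset ((K × K × K) × (K × K × K))).filter
        (fun xy => phi xy.1 + phi xy.2 = phi x3 + phi x4)) =
        (univ : Finset K).map ⟨_, hinj⟩ := by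
      ext ⟨a, b⟩
      simp only [mem_filter, mem_univ, true_and, mem_map, Function.Embedding.coeFn_mk,
        phi_add_eq_iff h]
      constructor
      · rintro ⟨t, ha, hb⟩
        exact ⟨t, by rw [ha, hb]⟩
      · rintro ⟨t, ht⟩
        exact ⟨t, (Prod.mk.inj ht).1.symm, (Prod.mk.inj ht).2.symm⟩
    rw [this, card_map, card_univ]

end defs

end Pool.Agent.H182R2.Jum
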