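import Pool.Agent.H182R2.JumA

set_option autoImplicit false
set_option linter.unusedSectionVars false
set_option linter.unnecessarySeqFocus false
set_option linter.unusedVariables false

open Finset

namespace Pool.Agent.H182R2.Jum

/-- A nontrivial `±1`-valued additive character. -/
structure Chi (K : Type) [Field K] [Fintype K] where
  ψ : K → ℤ
  add : ∀ a b, ψ (a + b) = ψ a * ψ b
  zero : ψ 0 = 1
  sum : ∑ a, ψ a = 0

section chars

variable {K : Type} [Field K] [Fintype K] [DecidableEq K] (χ : Chi K)

lemma sum_mul_right (b : K) :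
    ∑ a, χ.ψ (a * b) = if b = 0 then (Fintype.card K : ℤ) else 0 := by
  split_ifs with h
  · subst h
    simp [χ.zero]
  · rw [← χ.sum]
    exact Fintype.sum_equiv (Equiv.mulRight₀ b h) _ _ (fun a => rfl)

lemma sum3 (b : K × K × K) :
    ∑ x, χ.ψ (dot3 x b) = if b = 0 then (Fintype.card K : ℤ) ^ 3 else 0 := by
  have h : ∀ x : K × K × K, χ.ψ (dot3 x b) =
      χ.ψ (x.1 * b.1) * (χ.ψ (x.2.1 * b.2.1) * χ.ψ (x.2.2 * b.2.2)) := by
    intro x
    rw [dot3, χ.add, χ.add, mul_assoc]
  simp only [h]
  rw [Fintype.sum_prod_type]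
  simp only [← Finset.mul_sum]
  rw [← Finset.sum_mul, Fintype.sum_prod_type]
  simp only [← Finset.mul_sum]
  rw [← Finset.sum_mul, sum_mul_right, sum_mul_right, sum_mul_right]
  obtain ⟨b1, b2, b3⟩ := b
  simp only [Prod.mk_eq_zero]
  by_cases h1 : b1 = 0 <;> by_cases h2 : b2 = 0 <;> by_cases h3 : b3 = 0 <;>
    simp [h1, h2, h3] <;> ring

lemma sum6 (w : (K × K × K) × (K × K × K)) :
    ∑ z, χ.ψ (dot6 z w) = if w = 0 then (Fintype.card K : ℤ) ^ 6 else 0 := by
  simp only [dot6, χ.add]
  rw [Fintype.sum_prod_type]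
  simp only [← Finset.mul_sum]
  rw [← Finset.sum_mul, sum3, sum3]
  obtain ⟨b1, b2⟩ := w
  simp only [Prod.mk_eq_zero]
  by_cases h1 : b1 = 0 <;> by_cases h2 : b2 = 0 <;> simp [h1, h2] <;> ring

/-- the character `z ↦ ψ (w · z)`. -/
def e (w z : (K × K × K) × (K × K × K)) : ℤ := χ.ψ (dot6 w z)

lemma e_add_left (w w' z : (K × K × K) × (K × K × K)) :
    e χ (w + w') z = e χ w z * e χ w' z := by
  simp only [e, dot6_add_left, χ.add]

lemma e_add_right (w z z' : (K × K × K) × (K × K × K)) :
    e χ w (z + z') = e χ w z * e χ w z' := by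
  simp only [e, dot6_add_right, χ.add]

lemma e_zero_left (z : (K × K × K) × (K × K × K)) : e χ 0 z = 1 := by
  simp only [e, dot6_comm 0 z, dot6_zero, χ.zero]

lemma e_zero_right (z : (K × K × K) × (K × K × K)) : e χ z 0 = 1 := by
  simp only [e, dot6_zero, χ.zero]

lemma e_comm (w z : (K × K × K) × (K × K × K)) : e χ w z = e χ z w := by
  simp only [e, dot6_comm]

variable [CharP K 2]

lemma sum_e_mul (w w' : (K × K × K) × (K × K × K)) :
    ∑ y, e χ w y * e χ w' y = if w = w' then (Fintype.card K : ℤ) ^ 6 else 0 := by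
  simp only [← e_add_left]
  have h : ∀ y, e χ (w + w') y = χ.ψ (dot6 y (w + w')) := fun y => by rw [e, dot6_comm]
  simp only [h, sum6, add_eq_zero6]

/-- Convolution of two exponential sums. -/
lemma conv {ι κ : Type} [Fintype ι] [Fintype κ]
    (a : ι → (K × K × K) × (K × K × K)) (b : κ → (K × K × K) × (K × K × K))
    (z : (K × K × K) × (K × K × K)) :
    ∑ y, (∑ i, e χ (a i) y) * (∑ j, e χ (b j) (z + y)) =
      (Fintype.card K : ℤ) ^ 6 *
        ∑ j, e χ (b j) z * (((univ : Finset ι).filter (fun i => a i = b j)).card : ℤ) := by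
  have h1 : ∀ y, (∑ i, e χ (a i) y) * (∑ j, e χ (b j) (z + y)) =
      ∑ j, ∑ i, e χ (b j) z * (e χ (a i) y * e χ (b j) y) := by
    intro y
    rw [Finset.sum_mul_sum, Finset.sum_comm]
    refine Finset.sum_congr rfl fun j _ => Finset.sum_congr rfl fun i _ => ?_
    rw [e_add_right]
    ring
  simp only [h1]
  rw [Finset.sum_comm, Finset.mul_sum]
  refine Finset.sum_congr rfl fun j _ => ?_
  rw [Finset.sum_comm]
  simp only [← Finset.mul_sum, sum_e_mul]
  rw [← Finset.sum_filter, Finset.sum_const, nsmul_eq_mul]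
  ring

/-- The exponential sum over the graph of `F`. -/
def D (z : (K × K × K) × (K × K × K)) : ℤ := ∑ x : K × K × K, e χ (phi x) z

lemma D_sq (z : (K × K × K) × (K × K × K)) :
    D χ z ^ 2 = ∑ xy : (K × K × K) × (K × K × K), e χ (phi xy.1 + phi xy.2) z := by
  rw [Fintype.sum_prod_type, pow_two, D, Finset.sum_mul_sum]
  simp only [e_add_left]

lemma D_zero : D χ 0 = (Fintype.card K : ℤ) ^ 3 := by
  simp only [D, e_zero_right, Finset.sum_const, Finset.card_univ, Fintype.card_prod, nsmul_eq_mul,
    mul_one, Nat.cast_mul]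
  ring

lemma conv11 (z : (K × K × K) × (K × K × K)) :
    ∑ y, D χ y * D χ (z + y) = (Fintype.card K : ℤ) ^ 6 * D χ z := by
  have := conv χ phi phi z
  simp only [D]
  rw [this]
  congr 1
  refine Finset.sum_congr rfl fun j _ => ?_
  have h : ((univ : Finset (K × K × K)).filter (fun i => phi i = phi j)) = {j} := by
    ext i
    simp [phi_inj]
  rw [h, card_singleton]
  simp

lemma sum_mult (G : (K × K × K) × (K × K × K) → ℤ) (c : ℤ)
    (hG : ∀ x : K × K × K, G (x, x) = c) (A B : ℤ) :
    ∑ j : (K × K × K) × (K × K × K), G j * (if j.1 = j.2 then A else B) =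
      B * ∑ j, G j + (A - B) * ((Fintype.card K : ℤ) ^ 3 * c) := by
  have h : ∀ j : (K × K × K) × (K × K × K), G j * (if j.1 = j.2 then A else B) =
      B * G j + (A - B) * (if j.1 = j.2 then G j else 0) := by
    intro j
    split_ifs <;> ring
  simp only [h]
  rw [Finset.sum_add_distrib, ← Finset.mul_sum, ← Finset.mul_sum]
  congr 2
  rw [Fintype.sum_prod_type]
  have h2 : ∀ x : K × K × K, ∑ y : K × K × K, (if x = y then G (x, y) else 0) = c := by
    intro x
    rw [Finset.sum_ite_eq]
    simp [hG]
  simp only [h2, Finset.sum_const, Finset.card_univ, Fintype.card_prod, nsmul_eq_mul, Nat.cast_mul]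
  ring

lemma conv22 (z : (K × K × K) × (K × K × K)) :
    ∑ y, D χ y ^ 2 * D χ (z + y) ^ 2 = (Fintype.card K : ℤ) ^ 6 *
      ((Fintype.card K : ℤ) * D χ z ^ 2 + (Fintype.card K : ℤ) ^ 6 - (Fintype.card K : ℤ) ^ 4) := by
  have := conv χ (fun xy : (K × K × K) × (K × K × K) => phi xy.1 + phi xy.2)
    (fun xy : (K × K × K) × (K × K × K) => phi xy.1 + phi xy.2) z
  simp only [D_sq]
  rw [this]
  congr 1
  simp only [card_phi_add]
  have h := sum_mult (fun j : (K × K × K) × (K × K × K) => e χ (phi j.1 + phi j.2) z) 1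
    (fun x => by simp only [add_self6, e_zero_left]) ((Fintype.card K : ℤ) ^ 3)
    (Fintype.card K : ℤ)
  push_cast
  rw [h]
  ring

lemma conv21 (z : (K × K × K) × (K × K × K)) :
    ∑ y, D χ y ^ 2 * D χ (z + y) = (Fintype.card K : ℤ) ^ 6 *
      ((Fintype.card K : ℤ) * D χ z + (Fintype.card K : ℤ) ^ 3 - (Fintype.card K : ℤ)) := by
  have := conv χ (fun xy : (K × K × K) × (K × K × K) => phi xy.1 + phi xy.2) phi z
  simp only [D_sq]
  simp only [D]
  rw [this]
  congr 1
  have h : ∀ j : K × K × K, (((univ : Finset ((K × K × K) × (K × K × K))).filter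
      (fun i => phi i.1 + phi i.2 = phi j)).card : ℤ) =
      (Fintype.card K : ℤ) + if j = 0 then (Fintype.card K : ℤ) ^ 3 - Fintype.card K else 0 := by
    intro j
    have h0 : phi (0 : K × K × K) = 0 := by simp [phi, F]
    have h1 := card_phi_add j 0
    rw [h0, add_zero] at h1
    rw [h1]
    split_ifs <;> push_cast <;> ring
  simp only [h]
  simp only [mul_add, Finset.sum_add_distrib, mul_ite, mul_zero, Finset.sum_ite_eq',
    Finset.mem_univ, if_true]
  have h0 : phi (0 : K × K × K) = 0 := by simp [phi, F]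
  rw [h0, e_zero_left, ← Finset.sum_mul]
  ring

lemma sum_D : ∑ y, D χ y = (Fintype.card K : ℤ) ^ 6 := by
  have h := conv χ (fun _ : Unit => (0 : (K × K × K) × (K × K × K))) phi 0
  have h0 : phi (0 : K × K × K) = 0 := by simp [phi, F]
  simp only [Finset.univ_unique, Finset.sum_singleton, e_zero_left, one_mul, zero_add,
    e_zero_right] at h
  have h2 : ∀ j : K × K × K, (({default} : Finset Unit).filter
      (fun _ => (0 : (K × K × K) × (K × K × K)) = phi j)).card = if j = 0 then 1 else 0 := by
    intro j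
    by_cases hj : j = 0
    · subst hj
      simp [h0]
    · have : (0 : (K × K × K) × (K × K × K)) ≠ phi j := by
        rw [← h0]
        exact fun h' => hj (phi_inj.1 h').symm
      simp [this, hj]
  simp only [h2] at h
  simp only [D]
  rw [h]
  simp

lemma sum_D_sq : ∑ y, D χ y ^ 2 = (Fintype.card K : ℤ) ^ 9 := by
  have h := conv11 χ 0
  simp only [zero_add] at h
  have h2 : ∀ y, D χ y ^ 2 = D χ y * D χ y := fun y => pow_two _
  simp only [h2]
  rw [h, D_zero]
  ring

/-- A sum of a `±1`-valued homomorphism is `0` or `q`. -/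
lemma sum_hom (h : K → ℤ) (hadd : ∀ a b, h (a + b) = h a * h b) (h0 : h 0 = 1) :
    ∑ t, h t = 0 ∨ ∑ t, h t = (Fintype.card K : ℤ) := by
  by_cases hex : ∃ t0, h t0 ≠ 1
  · left
    obtain ⟨t0, ht0⟩ := hex
    have h1 : ∑ t, h t = h t0 * ∑ t, h t := by
      rw [Finset.mul_sum]
      refine (Fintype.sum_equiv (Equiv.addLeft t0) _ _ (fun t => ?_)).symm
      rw [← hadd]
      rfl
    have h2 : (h t0 - 1) * ∑ t, h t = 0 := by linear_combination -h1
    rcases mul_eq_zero.1 h2 with h3 | h3
    · exact absurd (sub_eq_zero.1 h3) ht0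
    · exact h3
  · right
    push Not at hex
    simp [hex]

lemma D_sq_values {z : (K × K × K) × (K × K × K)} (hz : z ≠ 0) :
    D χ z ^ 2 = 0 ∨ D χ z ^ 2 = (Fintype.card K : ℤ) ^ 4 := by
  obtain ⟨u, v⟩ := z
  by_cases hv : v = 0
  · subst hv
    have hu : u ≠ 0 := fun h => hz (by rw [h]; rfl)
    left
    have : D χ (u, 0) = 0 := by
      have h : ∀ x : K × K × K, e χ (phi x) (u, 0) = χ.ψ (dot3 x u) := by
        intro x
        simp [e, dot6, phi, dot3]
      simp only [D, h, sum3, if_neg hu]
    rw [this]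
    ring
  · have key : D χ (u, v) ^ 2 = (Fintype.card K : ℤ) ^ 3 *
        ∑ t : K, χ.ψ (t * dot3 u v + t * t * dot3 v (F v)) := by
      rw [D_sq, Fintype.sum_prod_type]
      have h1 : ∀ x : K × K × K, ∑ y : K × K × K, e χ (phi x + phi y) (u, v) =
          ∑ α : K × K × K, χ.ψ (dot3 u α + dot3 v (F α)) * χ.ψ (dot3 x (crs α v)) := by
        intro x
        refine (Fintype.sum_equiv (Equiv.addLeft x) _ _ (fun α => ?_)).symm
        rw [← χ.add, e]
        congr 1
        have h2 : phi x + phi (x + α) = (α, F α + crs x α) := by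
          have e1 : x + (x + α) = α := by rw [← add_assoc, add_self3, zero_add]
          have e2 : F x + F (x + α) = F α + crs x α := by
            rw [F_add]
            have : F x + (F x + F α + crs x α) = (F x + F x) + F α + crs x α := by abel
            rw [this, add_self3, zero_add]
          exact Prod.ext e1 e2
        show _ = dot6 (phi x + phi (x + α)) (u, v)
        rw [h2, dot6_comm]
        simp only [dot6, dot3_add_right]
        rw [dot3_crs v x α]
        ring
      simp only [h1]
      rw [Finset.sum_comm]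
      simp only [← Finset.mul_sum, sum3, mul_ite, mul_zero]
      rw [← Finset.sum_filter]
      have hfil : ((univ : Finset (K × K × K)).filter (fun α => crs α v = 0)) =
          (univ : Finset K).map ⟨fun t : K => ((t * v.1, t * v.2.1, t * v.2.2) : K × K × K), by
            intro t s hts
            simp only [Prod.mk.injEq] at hts
            obtain ⟨g1, g2, g3⟩ := hts
            by_contra hne
            apply hv
            have hne' : t - s ≠ 0 := sub_ne_zero.2 hne
            have k1 : v.1 = 0 := by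
              have : (t - s) * v.1 = 0 := by rw [sub_mul, g1, sub_self]
              exact (mul_eq_zero.1 this).resolve_left hne'
            have k2 : v.2.1 = 0 := by
              have : (t - s) * v.2.1 = 0 := by rw [sub_mul, g2, sub_self]
              exact (mul_eq_zero.1 this).resolve_left hne'
            have k3 : v.2.2 = 0 := by
              have : (t - s) * v.2.2 = 0 := by rw [sub_mul, g3, sub_self]
              exact (mul_eq_zero.1 this).resolve_left hne'
            exact Prod.ext k1 (Prod.ext k2 k3)⟩ := by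
        ext α
        simp only [mem_filter, mem_univ, true_and, mem_map, Function.Embedding.coeFn_mk]
        constructor
        · intro h
          obtain ⟨t, ht⟩ := exists_smul_of_crs hv h
          exact ⟨t, ht.symm⟩
        · rintro ⟨t, rfl⟩
          exact crs_smul_self t v
      rw [hfil, Finset.sum_map, Finset.mul_sum]
      refine Finset.sum_congr rfl fun t _ => ?_
      rw [mul_comm]
      congr 2
      show dot3 u (t * v.1, t * v.2.1, t * v.2.2) + dot3 v (F (t * v.1, t * v.2.1, t * v.2.2)) =
        t * dot3 u v + t * t * dot3 v (F v)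
      simp only [dot3, F]
      ring
    rcases sum_hom (fun t : K => χ.ψ (t * dot3 u v + t * t * dot3 v (F v))) (by
      intro a b
      show χ.ψ _ = χ.ψ _ * χ.ψ _
      rw [← χ.add]
      congr 1
      have := add_self (a * b * dot3 v (F v))
      linear_combination this) (by simp [χ.zero]) with h | h
    · left
      rw [key, h, mul_zero]
    · right
      rw [key, h]
      ring

end chars

end Pool.Agent.H182R2.Jum
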