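import Pool.Agent.H182R2.JumB

set_option autoImplicit false
set_option linter.unusedSectionVars false
set_option linter.unusedVariables false

open Finset

namespace Pool.Agent.H182R2.Jum

section sets

variable {K : Type} [Field K] [Fintype K] [DecidableEq K] (χ : Chi K)

/-- The connection set of the subgraph. -/
def T : Finset ((K × K × K) × (K × K × K)) :=
  univ.filter (fun z => D χ z = -(Fintype.card K : ℤ) ^ 2)

/-- The connection set of the host graph. -/
def S : Finset ((K × K × K) × (K × K × K)) :=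
  univ.filter (fun z => z ≠ 0 ∧ D χ z ≠ 0)

variable [CharP K 2]

lemma card_pos : (0 : ℤ) < Fintype.card K := by
  exact_mod_cast Fintype.card_pos

lemma mem_T {z : (K × K × K) × (K × K × K)} :
    z ∈ T χ ↔ D χ z = -(Fintype.card K : ℤ) ^ 2 := by simp [T]

lemma mem_S {z : (K × K × K) × (K × K × K)} :
    z ∈ S χ ↔ z ≠ 0 ∧ D χ z ≠ 0 := by simp [S]

lemma zero_not_mem_T : (0 : (K × K × K) × (K × K × K)) ∉ T χ := by
  rw [mem_T, D_zero]
  have := card_pos (K := K)
  intro h
  have h1 : (0 : ℤ) < (Fintype.card K : ℤ) ^ 3 := by positivity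
  have h2 : (0 : ℤ) < (Fintype.card K : ℤ) ^ 2 := by positivity
  linarith

lemma zero_not_mem_S : (0 : (K × K × K) × (K × K × K)) ∉ S χ := by
  rw [mem_S]; simp

lemma T_subset_S : T χ ⊆ S χ := by
  intro z hz
  rw [mem_S]
  refine ⟨?_, ?_⟩
  · rintro rfl
    exact zero_not_mem_T χ hz
  · rw [(mem_T χ).1 hz]
    have := card_pos (K := K)
    have h2 : (0 : ℤ) < (Fintype.card K : ℤ) ^ 2 := by positivity
    linarith

/-- indicator of `T`. -/
def iT (z : (K × K × K) × (K × K × K)) : ℤ := if z ∈ T χ then 1 else 0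

lemma indicator_T (z : (K × K × K) × (K × K × K)) :
    2 * (Fintype.card K : ℤ) ^ 4 * iT χ z =
      D χ z ^ 2 - (Fintype.card K : ℤ) ^ 2 * D χ z -
        ((Fintype.card K : ℤ) ^ 6 - (Fintype.card K : ℤ) ^ 5) * (if z = 0 then 1 else 0) := by
  have hq := card_pos (K := K)
  have h2 : (0 : ℤ) < (Fintype.card K : ℤ) ^ 2 := by positivity
  by_cases hz : z = 0
  · subst hz
    have : iT χ 0 = 0 := if_neg (zero_not_mem_T χ)
    rw [this, D_zero, if_pos rfl]
    ring
  · rw [if_neg hz]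
    rcases D_sq_values χ hz with h | h
    · have h0 : D χ z = 0 := pow_eq_zero_iff (two_ne_zero) |>.1 h
      have : iT χ z = 0 := by
        rw [iT, if_neg]
        rw [mem_T, h0]
        intro h'
        linarith
      rw [this, h0]
      ring
    · have hf : (D χ z - (Fintype.card K : ℤ) ^ 2) * (D χ z + (Fintype.card K : ℤ) ^ 2) = 0 := by
        linear_combination h
      rcases mul_eq_zero.1 hf with h1 | h1
      · have h0 : D χ z = (Fintype.card K : ℤ) ^ 2 := by linarith
        have : iT χ z = 0 := by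
          rw [iT, if_neg]
          rw [mem_T, h0]
          intro h'
          linarith
        rw [this, h0]
        ring
      · have h0 : D χ z = -(Fintype.card K : ℤ) ^ 2 := by linarith
        have : iT χ z = 1 := by
          rw [iT, if_pos]
          rw [mem_T, h0]
        rw [this, h0]
        ring

lemma sum_iT : ∑ z, iT χ z = ((T χ).card : ℤ) := by
  simp only [iT]
  rw [Finset.sum_ite_mem, Finset.univ_inter]
  simp

lemma card_T : 2 * ((T χ).card : ℤ) = (Fintype.card K : ℤ) ^ 5 - (Fintype.card K : ℤ) ^ 4 -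
    (Fintype.card K : ℤ) ^ 2 + (Fintype.card K : ℤ) := by
  have hq := card_pos (K := K)
  have h := Finset.sum_congr (rfl : (univ : Finset ((K × K × K) × (K × K × K))) = univ)
    (fun z _ => indicator_T χ z)
  rw [← Finset.mul_sum, sum_iT, Finset.sum_sub_distrib, Finset.sum_sub_distrib, ← Finset.mul_sum,
    ← Finset.mul_sum, sum_D_sq, sum_D, Finset.sum_ite_eq'] at h
  simp only [Finset.mem_univ, if_true] at h
  have h4 : (Fintype.card K : ℤ) ^ 4 ≠ 0 := by positivity
  apply mul_left_cancel₀ h4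
  linear_combination h

/-- every element of `T` is a sum of two elements of `T` in the same number of ways. -/
lemma count_T {z : (K × K × K) × (K × K × K)} (hz : z ∈ T χ) :
    4 * ∑ y, iT χ y * iT χ (z + y) =
      (Fintype.card K : ℤ) ^ 3 - 5 * (Fintype.card K : ℤ) ^ 2 + 6 * (Fintype.card K : ℤ) := by
  set q : ℤ := (Fintype.card K : ℤ) with hqdef
  have hq : 0 < q := card_pos (K := K)
  have hz0 : z ≠ 0 := fun h => zero_not_mem_T χ (h ▸ hz)
  have hD : D χ z = -q ^ 2 := (mem_T χ).1 hz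
  set κ : ℤ := q ^ 6 - q ^ 5 with hκ
  have hB : ∀ y, 2 * q ^ 4 * iT χ y = D χ y ^ 2 - q ^ 2 * D χ y - κ * (if y = 0 then 1 else 0) :=
    fun y => indicator_T χ y
  have h1 : ∑ y, (2 * q ^ 4 * iT χ y) * (2 * q ^ 4 * iT χ (z + y)) =
      q ^ 8 * (4 * ∑ y, iT χ y * iT χ (z + y)) := by
    rw [Finset.mul_sum, Finset.mul_sum]
    refine Finset.sum_congr rfl fun y _ => ?_
    ring
  have h2 : ∀ y, (2 * q ^ 4 * iT χ y) * (2 * q ^ 4 * iT χ (z + y)) =
      D χ y ^ 2 * D χ (z + y) ^ 2 - q ^ 2 * (D χ y ^ 2 * D χ (z + y)) -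
        q ^ 2 * (D χ y * D χ (z + y) ^ 2) + q ^ 4 * (D χ y * D χ (z + y)) -
        κ * (if y = 0 then (D χ (z + y) ^ 2 - q ^ 2 * D χ (z + y)) else 0) -
        κ * (if y = z then (D χ y ^ 2 - q ^ 2 * D χ y) else 0) := by
    intro y
    rw [hB, hB]
    have hzy : (z + y = 0) ↔ (y = z) := by
      rw [add_eq_zero6]; exact eq_comm
    simp only [hzy]
    by_cases hy0 : y = 0
    · subst hy0
      simp only [if_true, if_neg hz0.symm]
      ring
    · by_cases hyz : y = z
      · subst hyz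
        simp only [if_neg hy0, if_true]
        ring
      · simp only [if_neg hy0, if_neg hyz]
        ring
  have h3 : ∑ y, D χ y * D χ (z + y) ^ 2 = ∑ y, D χ y ^ 2 * D χ (z + y) := by
    refine Fintype.sum_equiv (Equiv.addLeft z) _ _ (fun y => ?_)
    show _ = D χ (z + y) ^ 2 * D χ (z + (z + y))
    rw [← add_assoc z z y, add_self6, zero_add]
    ring
  have h4 : ∑ y, (2 * q ^ 4 * iT χ y) * (2 * q ^ 4 * iT χ (z + y)) =
      q ^ 6 * (q * D χ z ^ 2 + q ^ 6 - q ^ 4) - q ^ 2 * (q ^ 6 * (q * D χ z + q ^ 3 - q)) -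
        q ^ 2 * (q ^ 6 * (q * D χ z + q ^ 3 - q)) + q ^ 4 * (q ^ 6 * D χ z) -
        κ * (D χ z ^ 2 - q ^ 2 * D χ z) - κ * (D χ z ^ 2 - q ^ 2 * D χ z) := by
    simp only [h2]
    rw [Finset.sum_sub_distrib, Finset.sum_sub_distrib, Finset.sum_add_distrib,
      Finset.sum_sub_distrib, Finset.sum_sub_distrib, ← Finset.mul_sum, ← Finset.mul_sum,
      ← Finset.mul_sum, ← Finset.mul_sum, ← Finset.mul_sum, h3, conv22, conv21, conv11,
      Finset.sum_ite_eq', Finset.sum_ite_eq']
    simp only [Finset.mem_univ, if_true, add_zero]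
    rw [← hqdef]
  rw [h1, hD] at h4
  have h8 : q ^ 8 ≠ 0 := by positivity
  apply mul_left_cancel₀ h8
  rw [h4, hκ]
  ring

/-- Parseval. -/
lemma parseval (X : Finset ((K × K × K) × (K × K × K))) :
    ∑ w, (∑ z ∈ X, e χ w z) ^ 2 = (Fintype.card K : ℤ) ^ 6 * (X.card : ℤ) := by
  have h : ∀ w, (∑ z ∈ X, e χ w z) ^ 2 = ∑ z ∈ X, ∑ z' ∈ X, e χ z w * e χ z' w := by
    intro w
    rw [pow_two, Finset.sum_mul_sum]
    refine Finset.sum_congr rfl fun z _ => Finset.sum_congr rfl fun z' _ => ?_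
    rw [e_comm χ w z, e_comm χ w z']
  simp only [h]
  rw [Finset.sum_comm]
  have h2 : ∀ z ∈ X, ∑ w, ∑ z' ∈ X, e χ z w * e χ z' w = (Fintype.card K : ℤ) ^ 6 := by
    intro z hz
    rw [Finset.sum_comm]
    simp only [sum_e_mul]
    rw [Finset.sum_ite_eq, if_pos hz]
  rw [Finset.sum_congr rfl h2, Finset.sum_const, nsmul_eq_mul]
  ring

lemma indicator_S (z : (K × K × K) × (K × K × K)) :
    (Fintype.card K : ℤ) ^ 4 * (if z ∈ S χ then 1 else 0) =
      D χ z ^ 2 - (Fintype.card K : ℤ) ^ 6 * (if z = 0 then 1 else 0) := by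
  by_cases hz : z = 0
  · subst hz
    rw [if_neg (zero_not_mem_S χ), if_pos rfl, D_zero]
    ring
  · rw [if_neg hz]
    rcases D_sq_values χ hz with h | h
    · have h0 : D χ z = 0 := pow_eq_zero_iff (two_ne_zero) |>.1 h
      rw [if_neg (by rw [mem_S, h0]; simp), h]
      ring
    · have hne : D χ z ≠ 0 := by
        intro h0
        rw [h0] at h
        have hq := card_pos (K := K)
        have h1 : (0 : ℤ) < (Fintype.card K : ℤ) ^ 4 := by positivity
        have h2 : (0 : ℤ) ^ 2 = 0 := by norm_num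
        rw [h2] at h
        linarith
      rw [if_pos ((mem_S χ).2 ⟨hz, hne⟩), h]
      ring

/-- edges between two sets. -/
lemma edges_S (X Y : Finset ((K × K × K) × (K × K × K))) :
    (Fintype.card K : ℤ) ^ 4 * ∑ a ∈ X, ∑ b ∈ Y, (if a + b ∈ S χ then (1 : ℤ) else 0) =
      ∑ xy : (K × K × K) × (K × K × K), (∑ a ∈ X, e χ (phi xy.1 + phi xy.2) a) *
        (∑ b ∈ Y, e χ (phi xy.1 + phi xy.2) b) - (Fintype.card K : ℤ) ^ 6 * ((X ∩ Y).card : ℤ) := by
  have hL : (Fintype.card K : ℤ) ^ 4 * ∑ a ∈ X, ∑ b ∈ Y, (if a + b ∈ S χ then (1 : ℤ) else 0) =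
      ∑ a ∈ X, ∑ b ∈ Y, D χ (a + b) ^ 2 - (Fintype.card K : ℤ) ^ 6 * ((X ∩ Y).card : ℤ) := by
    simp only [Finset.mul_sum, indicator_S, add_eq_zero6]
    simp only [Finset.sum_sub_distrib]
    congr 1
    simp only [← Finset.mul_sum, Finset.sum_ite_eq]
    congr 1
    rw [Finset.sum_ite_mem, Finset.sum_const, nsmul_eq_mul, mul_one]
  rw [hL]
  congr 1
  have h : ∀ xy : (K × K × K) × (K × K × K), (∑ a ∈ X, e χ (phi xy.1 + phi xy.2) a) *
      (∑ b ∈ Y, e χ (phi xy.1 + phi xy.2) b) =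
      ∑ a ∈ X, ∑ b ∈ Y, e χ (phi xy.1 + phi xy.2) (a + b) := by
    intro xy
    rw [Finset.sum_mul_sum]
    refine Finset.sum_congr rfl fun z _ => Finset.sum_congr rfl fun z' _ => ?_
    rw [e_add_right]
  simp only [h]
  symm
  rw [Finset.sum_comm]
  refine Finset.sum_congr rfl fun a _ => ?_
  rw [Finset.sum_comm]
  refine Finset.sum_congr rfl fun b _ => ?_
  rw [D_sq]

/-- The jumbledness estimate, multiplied out. -/
lemma jumbled_int (X Y : Finset ((K × K × K) × (K × K × K))) :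
    |((Fintype.card K : ℝ)) ^ 4 * ((∑ a ∈ X, ∑ b ∈ Y, (if a + b ∈ S χ then (1 : ℤ) else 0) : ℤ) : ℝ) -
      (Fintype.card K : ℝ) ^ 3 * X.card * Y.card| ≤
      2 * (Fintype.card K : ℝ) ^ 7 * Real.sqrt (X.card * Y.card) := by
  set q : ℝ := (Fintype.card K : ℝ) with hq
  have hq1 : 1 ≤ q := by
    rw [hq]
    exact_mod_cast Fintype.card_pos (α := K)
  -- the two transforms
  set A : (K × K × K) × (K × K × K) → ℝ := fun w => ((∑ a ∈ X, e χ w a : ℤ) : ℝ) with hA
  set B : (K × K × K) × (K × K × K) → ℝ := fun w => ((∑ b ∈ Y, e χ w b : ℤ) : ℝ) with hB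
  have hA0 : A 0 = X.card := by simp [hA, e_zero_left]
  have hB0 : B 0 = Y.card := by simp [hB, e_zero_left]
  have hPA : ∑ w, A w ^ 2 = q ^ 6 * X.card := by
    have := parseval χ X
    have h2 : ((∑ w, (∑ z ∈ X, e χ w z) ^ 2 : ℤ) : ℝ) =
      (((Fintype.card K : ℤ) ^ 6 * (X.card : ℤ) : ℤ) : ℝ) := by rw [this]
    push_cast at h2
    simp only [hA]
    push_cast
    exact h2
  have hPB : ∑ w, B w ^ 2 = q ^ 6 * Y.card := by
    have := parseval χ Y
    have h2 : ((∑ w, (∑ z ∈ Y, e χ w z) ^ 2 : ℤ) : ℝ) =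
      (((Fintype.card K : ℤ) ^ 6 * (Y.card : ℤ) : ℤ) : ℝ) := by rw [this]
    push_cast at h2
    simp only [hB]
    push_cast
    exact h2
  have hE : q ^ 4 * ((∑ a ∈ X, ∑ b ∈ Y, (if a + b ∈ S χ then (1 : ℤ) else 0) : ℤ) : ℝ) =
      ∑ xy : (K × K × K) × (K × K × K), A (phi xy.1 + phi xy.2) * B (phi xy.1 + phi xy.2) -
        q ^ 6 * ((X ∩ Y).card : ℝ) := by
    have h2 := congrArg (fun t : ℤ => (t : ℝ)) (edges_S χ X Y)
    simp only [hA, hB]
    push_cast at h2 ⊢
    exact h2
  -- split diagonal and off-diagonal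
  have hsplit : ∑ xy : (K × K × K) × (K × K × K), A (phi xy.1 + phi xy.2) * B (phi xy.1 + phi xy.2)
      = q ^ 3 * X.card * Y.card +
        ∑ xy ∈ (univ : Finset ((K × K × K) × (K × K × K))).filter (fun xy => ¬ xy.1 = xy.2),
          A (phi xy.1 + phi xy.2) * B (phi xy.1 + phi xy.2) := by
    rw [← Finset.sum_filter_add_sum_filter_not univ
      (fun xy : (K × K × K) × (K × K × K) => xy.1 = xy.2)]
    congr 1
    have h1 : ∀ xy ∈ (univ : Finset ((K × K × K) × (K × K × K))).filter (fun xy => xy.1 = xy.2),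
        A (phi xy.1 + phi xy.2) * B (phi xy.1 + phi xy.2) = X.card * Y.card := by
      intro xy hxy
      rw [(mem_filter.1 hxy).2, add_self6, hA0, hB0]
    rw [Finset.sum_congr rfl h1, Finset.sum_const, nsmul_eq_mul]
    have h2 : ((univ : Finset ((K × K × K) × (K × K × K))).filter (fun xy => xy.1 = xy.2)) =
        (univ : Finset (K × K × K)).map ⟨fun x => (x, x), fun a b h => (Prod.mk.inj h).1⟩ := by
      ext ⟨a, b⟩
      simp only [mem_filter, mem_univ, true_and, mem_map]
      constructor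
      · rintro rfl; exact ⟨a, rfl⟩
      · rintro ⟨c, hc⟩
        rw [← (Prod.mk.inj hc).1, ← (Prod.mk.inj hc).2]
    rw [h2, card_map, card_univ, Fintype.card_prod, Fintype.card_prod]
    push_cast
    ring
  have hoff : |∑ xy ∈ (univ : Finset ((K × K × K) × (K × K × K))).filter (fun xy => ¬ xy.1 = xy.2),
      A (phi xy.1 + phi xy.2) * B (phi xy.1 + phi xy.2)| ≤
      q * (q ^ 6 * Real.sqrt (X.card * Y.card)) := by
    refine (Finset.abs_sum_le_sum_abs _ _).trans ?_
    have hfib : ∑ xy ∈ (univ : Finset ((K × K × K) × (K × K × K))).filter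
        (fun xy => ¬ xy.1 = xy.2), |A (phi xy.1 + phi xy.2) * B (phi xy.1 + phi xy.2)| =
        ∑ w, ∑ xy ∈ ((univ : Finset ((K × K × K) × (K × K × K))).filter
          (fun xy => ¬ xy.1 = xy.2)).filter (fun xy => phi xy.1 + phi xy.2 = w),
          |A (phi xy.1 + phi xy.2) * B (phi xy.1 + phi xy.2)| :=
      (Finset.sum_fiberwise _ _ _).symm
    rw [hfib]
    have hle : ∀ w, ∑ xy ∈ ((univ : Finset ((K × K × K) × (K × K × K))).filter
          (fun xy => ¬ xy.1 = xy.2)).filter (fun xy => phi xy.1 + phi xy.2 = w),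
          |A (phi xy.1 + phi xy.2) * B (phi xy.1 + phi xy.2)| ≤ q * (|A w| * |B w|) := by
      intro w
      have h1 : ∀ xy ∈ ((univ : Finset ((K × K × K) × (K × K × K))).filter
          (fun xy => ¬ xy.1 = xy.2)).filter (fun xy => phi xy.1 + phi xy.2 = w),
          |A (phi xy.1 + phi xy.2) * B (phi xy.1 + phi xy.2)| = |A w| * |B w| := by
        intro xy hxy
        rw [(mem_filter.1 hxy).2, abs_mul]
      rw [Finset.sum_congr rfl h1, Finset.sum_const, nsmul_eq_mul]
      apply mul_le_mul_of_nonneg_right _ (by positivity)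
      rw [hq]
      have : (((univ : Finset ((K × K × K) × (K × K × K))).filter
          (fun xy => ¬ xy.1 = xy.2)).filter (fun xy => phi xy.1 + phi xy.2 = w)).card ≤
          Fintype.card K := by
        rcases Finset.eq_empty_or_nonempty ((((univ : Finset ((K × K × K) × (K × K × K))).filter
          (fun xy => ¬ xy.1 = xy.2)).filter (fun xy => phi xy.1 + phi xy.2 = w))) with h | h
        · rw [h]; simp
        · obtain ⟨⟨x3, x4⟩, h34⟩ := h
          have hne : ¬ x3 = x4 := (mem_filter.1 (mem_filter.1 h34).1).2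
          have hw : phi x3 + phi x4 = w := (mem_filter.1 h34).2
          have hc := card_phi_add x3 x4
          rw [if_neg hne, hw] at hc
          rw [← hc]
          apply Finset.card_le_card
          intro xy hxy
          exact mem_filter.2 ⟨mem_univ _, (mem_filter.1 hxy).2⟩
      exact_mod_cast this
    refine (Finset.sum_le_sum fun w _ => hle w).trans ?_
    rw [← Finset.mul_sum]
    apply mul_le_mul_of_nonneg_left _ (by linarith)
    have hCS := Finset.sum_mul_sq_le_sq_mul_sq univ (fun w => |A w|) (fun w => |B w|)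
    simp only [sq_abs] at hCS
    rw [hPA, hPB] at hCS
    have hnn : 0 ≤ ∑ w, |A w| * |B w| := Finset.sum_nonneg fun w _ => by positivity
    have h6 : q ^ 6 * Real.sqrt (X.card * Y.card) =
        Real.sqrt (q ^ 6 * X.card * (q ^ 6 * Y.card)) := by
      have : q ^ 6 * (X.card : ℝ) * (q ^ 6 * Y.card) = (q ^ 6) ^ 2 * ((X.card : ℝ) * Y.card) := by
        ring
      rw [this, Real.sqrt_mul (show (0 : ℝ) ≤ (q ^ 6) ^ 2 by positivity),
        Real.sqrt_sq (show (0 : ℝ) ≤ q ^ 6 by positivity)]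
    rw [h6]
    exact Real.le_sqrt_of_sq_le hCS
  have hint : ((X ∩ Y).card : ℝ) ≤ Real.sqrt (X.card * Y.card) := by
    apply Real.le_sqrt_of_sq_le
    have h1 : ((X ∩ Y).card : ℝ) ≤ X.card := by
      exact_mod_cast Finset.card_le_card Finset.inter_subset_left
    have h2 : ((X ∩ Y).card : ℝ) ≤ Y.card := by
      exact_mod_cast Finset.card_le_card Finset.inter_subset_right
    have h3 : (0 : ℝ) ≤ ((X ∩ Y).card : ℝ) := by positivity
    nlinarith
  rw [hE, hsplit]
  set W := ∑ xy ∈ (univ : Finset ((K × K × K) × (K × K × K))).filter (fun xy => ¬ xy.1 = xy.2),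
      A (phi xy.1 + phi xy.2) * B (phi xy.1 + phi xy.2)
  have e1 : q ^ 3 * X.card * Y.card + W - q ^ 6 * ((X ∩ Y).card : ℝ) - q ^ 3 * X.card * Y.card =
      W - q ^ 6 * ((X ∩ Y).card : ℝ) := by ring
  rw [e1]
  refine (abs_sub _ _).trans ?_
  have h7 : |q ^ 6 * ((X ∩ Y).card : ℝ)| ≤ q ^ 7 * Real.sqrt (X.card * Y.card) := by
    rw [abs_of_nonneg (by positivity)]
    have h8 : q ^ 6 ≤ q ^ 7 := pow_le_pow_right₀ hq1 (by norm_num)
    exact mul_le_mul h8 hint (by positivity) (by positivity)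
  calc |W| + |q ^ 6 * ((X ∩ Y).card : ℝ)| ≤ q * (q ^ 6 * Real.sqrt (X.card * Y.card)) +
        q ^ 7 * Real.sqrt (X.card * Y.card) := add_le_add hoff h7
    _ = 2 * q ^ 7 * Real.sqrt (X.card * Y.card) := by ring

end sets

end Pool.Agent.H182R2.Jum
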